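import Pool.Agent.Lib_MP_e33218_ins.Main
import Pool.Agent.Lib_MP_e33218_ins.Count

set_option autoImplicit false

/-!
# MP_e33218_gt: compact lines which are continuous images of Valdivia compacta
-/

namespace Pool.Agent.Results.MP_e33218_gt.WeightAlephOne

open Topology Cardinal

/-- `Σ(Γ)`: the points of `ℝ^Γ` with at most countably many nonzero coordinates. -/
def SigmaProduct (Γ : Type) : Set (Γ → ℝ) := {x | {γ | x γ ≠ 0}.Countable}

/-- `X` is a Valdivia compactum: it is compact and some homeomorphic embedding `h` of `X` into a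
power `ℝ^Γ` makes `h⁻¹(Σ(Γ))` dense in `X`. -/
def IsValdivia (X : Type) [TopologicalSpace X] : Prop :=
  CompactSpace X ∧ ∃ (Γ : Type) (h : X → Γ → ℝ), IsEmbedding h ∧ Dense (h ⁻¹' SigmaProduct Γ)

/-- `X` is a zero-dimensional Valdivia compactum of weight at most `ℵ₁`: in the definition above
the embedding takes its values in `{0,1}^Γ` and `Γ` has at most `ℵ₁` elements. -/
def IsSmallValdivia (X : Type) [TopologicalSpace X] : Prop :=
  CompactSpace X ∧ ∃ (Γ : Type) (h : X → Γ → ℝ), #Γ ≤ ℵ₁ ∧ IsEmbedding h ∧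
    (∀ x γ, h x γ = 0 ∨ h x γ = 1) ∧ Dense (h ⁻¹' SigmaProduct Γ)

/-- Let `K` be a linearly ordered compact space and let some Valdivia compactum `V` admit a
continuous surjection onto `K`. Then (1) there are a linearly ordered compact space `L`, which is a
zero-dimensional Valdivia compactum of weight at most `ℵ₁`, and a continuous order-preserving
surjection of `L` onto `K`; (2) `K` has a base of at most `ℵ₁` open sets; (3) at most `ℵ₁` points
of `K` have no countable neighbourhood base. -/
theorem result (K V : Type) [LinearOrder K] [TopologicalSpace K] [OrderTopology K]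
    [CompactSpace K] [TopologicalSpace V] (hV : IsValdivia V) (f : V → K) (hf : Continuous f)
    (hs : Function.Surjective f) :
    (∃ (L : Type) (_ : LinearOrder L) (_ : TopologicalSpace L) (_ : OrderTopology L),
      IsSmallValdivia L ∧ IsValdivia L ∧
        ∃ g : L → K, Continuous g ∧ Function.Surjective g ∧ Monotone g) ∧
    (∃ B : Set (Set K), TopologicalSpace.IsTopologicalBasis B ∧ #B ≤ ℵ₁) ∧
    #{x : K | ¬ (𝓝 x).IsCountablyGenerated} ≤ ℵ₁ := by
  have hsv : ∀ (X : Type) [TopologicalSpace X], IsSmallValdivia X → IsValdivia X := by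
    rintro X _ ⟨h1, Γ, h, -, h2, -, h3⟩
    exact ⟨h1, Γ, h, h2, h3⟩
  rcases isEmpty_or_nonempty K with hK | hK
  · have hsm : IsSmallValdivia K := by
      refine ⟨inferInstance, Unit, fun _ _ => 0, ?_, ?_, fun x => isEmptyElim x,
        fun x => isEmptyElim x⟩
      · rw [mk_unit]
        exact one_le_aleph0.trans (aleph0_le_aleph 1)
      · exact (continuous_const.isClosedEmbedding (fun a => isEmptyElim a)).isEmbedding
    refine ⟨⟨K, inferInstance, inferInstance, inferInstance, hsm, hsv K hsm, id, continuous_id,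
      Function.surjective_id, monotone_id⟩, ⟨∅, ?_, ?_⟩, ?_⟩
    · refine TopologicalSpace.isTopologicalBasis_of_isOpen_of_nhds (fun u hu => absurd hu ?_)
        (fun a => isEmptyElim a)
      exact Set.notMem_empty u
    · rw [mk_eq_zero]
      exact zero_le
    · rw [mk_eq_zero]
      exact zero_le
  obtain ⟨hVc, Γ, h, hemb, hd⟩ := hV
  obtain ⟨b, -, hb'⟩ := (isCompact_univ (X := K)).exists_isLeast Set.univ_nonempty
  obtain ⟨D, hD, hD1, hD2⟩ := Lib_MP_e33218_ins.main_theorem' K V Γ h hemb hd f hf hs b
    (fun k => hb' (Set.mem_univ k))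
  let τ : TopologicalSpace (LowerSet D) := Preorder.topology (LowerSet D)
  have hτ : OrderTopology (LowerSet D) := ⟨rfl⟩
  obtain ⟨⟨h', hemb', h01, hd'⟩, g, hg, hgs, hgm, -⟩ := hD2
  have hsm : IsSmallValdivia (LowerSet D) :=
    ⟨inferInstance, D, h', hD, hemb', h01, hd'⟩
  exact ⟨⟨LowerSet D, inferInstance, τ, hτ, hsm, hsv _ hsm, g, hg, hgs, hgm⟩,
    Lib_MP_e33218_ins.weight hD hD1,
    Lib_MP_e33218_ins.card_char hD hemb'.continuous hemb'.injective hd' hg hgs hgm⟩

end Pool.Agent.Results.MP_e33218_gt.WeightAlephOne
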